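import Pool.Agent.MHP.StmtsS

set_option autoImplicit false

namespace Pool.Agent.MHP.H24

open Pool.Agent.HMT

/-- number of vertices of a glued graph -/
theorem ins_card {V W : Type} [Finite V] [Finite W] (r : V) :
    Nat.card (W ⊕ {v : V // v ≠ r}) + 1 = Nat.card W + Nat.card V := by
  classical
  have h := Nat.card_congr (Equiv.optionSubtypeNe r)
  rw [Finite.card_option] at h
  rw [Nat.card_sum]
  omega

theorem ins_comp (A : PG) :
    Nat.card A.comp.G.edgeSet ≤ Nat.card A.G.edgeSet := by
  have hf : ∀ e : A.comp.G.edgeSet, Sym2.map Subtype.val e.1 ∈ A.G.edgeSet := by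
    rintro ⟨e, he⟩
    induction e with
    | h a b => exact he
  have hinj : Function.Injective
      (fun e : A.comp.G.edgeSet => (⟨Sym2.map Subtype.val e.1, hf e⟩ : A.G.edgeSet)) := by
    intro a b h
    have h1 : Sym2.map Subtype.val a.1 = Sym2.map Subtype.val b.1 := congrArg Subtype.val h
    exact Subtype.ext (Sym2.map.injective Subtype.val_injective h1)
  exact Nat.card_le_card_of_injective _ hinj

theorem ins (stf : StfStmt) (spg : SpgStmt) (thn : ThnStmt) (eds : EdsStmt) (cor : CorStmt) :
    InsStmt := by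
  classical
  intro P g s hP
  obtain ⟨hc, hs, he⟩ := stf (s + 2)
  refine ⟨⟨Option (Fin (s + 2)), star (s + 2), none⟩, Unit, inferInstance,
    fun _ => ⟨Option (Fin (s + 2)), star (s + 2), some 0⟩, 1, fun _ => 1, hc, one_ne_zero,
    hs _, fun _ => ⟨hs _, ?_, ins_comp _⟩, ?_⟩
  · rintro ⟨φ, hφ⟩
    have key : ∀ i : Fin (s + 2), ((φ.symm (some i)).1 : Option (Fin (s + 2))) = none := by
      intro i
      have h1 : (star (s + 2)).Adj none (some i) := ⟨by simp, Or.inl rfl⟩
      have h2 := φ.symm.map_adj_iff.2 h1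
      have h3 : φ.symm none = PG.r (PG.comp ⟨Option (Fin (s + 2)), star (s + 2), some 0⟩) := by
        exact (congrArg φ.symm hφ.symm).trans (φ.symm_apply_apply _)
      rw [h3] at h2
      have h4 : (star (s + 2)).Adj (some 0) (φ.symm (some i)).1 := h2
      rcases h4.2 with h5 | h5
      · exact absurd h5 (by simp)
      · exact h5
    have h6 : φ.symm (some 0) = φ.symm (some 1) := Subtype.ext ((key 0).trans (key 1).symm)
    have h7 := φ.symm.injective h6
    simp at h7
  · intro X hX _
    have c1 := ins_card (W := X.V) (none : Option (Fin (s + 2)))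
    have c2 := ins_card (W := X.V) (some 0 : Option (Fin (s + 2)))
    have c3 : Nat.card (Option (Fin (s + 2))) = s + 3 := by
      rw [Finite.card_option, Nat.card_eq_fintype_card, Fintype.card_fin]
    obtain ⟨i1⟩ := cor X.V X.G X.r (s + 2) none
    obtain ⟨i2⟩ := cor X.V X.G X.r (s + 2) (some 0)
    have h := hP _ _ (glue X.G X.r (star (s + 2)) none) (glue X.G X.r (star (s + 2)) (some 0))
      (thn _ _ _ (spg _ _ _ _ _ _ _ hX (hs _))) (thn _ _ _ (spg _ _ _ _ _ _ _ hX (hs _)))
      (by omega) (by omega) (by rw [eds, eds]) ⟨i1.trans i2.symm⟩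
    have h2 : mu P (glue X.G X.r (star (s + 2)) none) =
        mu P (glue X.G X.r (star (s + 2)) (some 0)) := by
      unfold mu
      rw [if_congr h rfl rfl]
    simpa using h2

end Pool.Agent.MHP.H24
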